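import Pool.Agent.Lib.MP_5335f7_al.Emb2

/-!
Every finitely generated solvable group of derived length `l` (where `l` is at least one) embeds
in a two generated solvable group of derived length exactly `l + 1`.
-/

namespace Pool.Agent.Results.MP_5335f7_al.TwoGenerated

open Pool.Agent.Lib.MP_5335f7_al

universe u

/-- Let `l ≥ 1` and let `G` be a finitely generated group whose derived length equals `l`, that is,
`l` is the least `m` such that the `m`-th derived subgroup of `G` is trivial. Then there are a
group `H`, generated by two elements `a` and `b`, of derived length exactly `l + 1`, and an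
injective homomorphism from `G` to `H`. -/
theorem result : ∀ l : ℕ, 1 ≤ l → ∀ (G : Type u) [Group G], Group.FG G →
    IsLeast {m : ℕ | derivedSeries G m = ⊥} l →
    ∃ (H : Type) (_ : Group H) (a b : H) (φ : G →* H),
      Function.Injective φ ∧ Subgroup.closure {a, b} = ⊤ ∧
      IsLeast {m : ℕ | derivedSeries H m = ⊥} (l + 1) := by
  intro l hl G _ hfg hG
  obtain ⟨S, hS, hfin⟩ := Group.fg_iff.1 hfg
  have hfin' : Finite S := hfin
  obtain ⟨k, ⟨e⟩⟩ := Finite.exists_equiv_fin S
  let π : FreeGroup (Fin k) →* G := FreeGroup.lift fun i => (e.symm i : G)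
  have hπ : Function.Surjective π := by
    rw [← MonoidHom.range_eq_top, eq_top_iff, ← hS, Subgroup.closure_le]
    intro s hs
    refine ⟨FreeGroup.of (e ⟨s, hs⟩), ?_⟩
    simp [π]
  let G' := FreeGroup (Fin k) ⧸ π.ker
  let E : G' ≃* G := QuotientGroup.quotientKerEquivOfSurjective π hπ
  have hfg' : Group.FG G' := Group.fg_of_surjective (f := E.symm.toMonoidHom) E.symm.surjective
  have htr : ∀ m, derivedSeries G m = ⊥ → derivedSeries G' m = ⊥ := fun m h =>
    derivedSeries_eq_bot_of_injective E.toMonoidHom E.injective m h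
  have htr' : ∀ m, derivedSeries G' m = ⊥ → derivedSeries G m = ⊥ := fun m h =>
    derivedSeries_eq_bot_of_injective E.symm.toMonoidHom E.symm.injective m h
  have hG' : derivedSeries G' l = ⊥ := htr l hG.1
  obtain ⟨H, _, a, b, φ, hφ, hab, hH, hex⟩ := embed_of_good l G' (good_of_fg l hl G' hfg' hG')
  refine ⟨H, inferInstance, a, b, φ.comp E.symm.toMonoidHom, ?_, hab, hH, ?_⟩
  · exact hφ.comp E.symm.injective
  · intro m hm
    by_contra hcon
    have hml : m ≤ l := by omega
    obtain ⟨j, rfl⟩ : ∃ j, l = j + 1 := ⟨l - 1, by omega⟩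
    have h1 : derivedSeries H (j + 1) = ⊥ := derivedSeries_eq_bot_of_le hml hm
    have h2 := hG.2 (htr' j (hex j h1))
    omega

end Pool.Agent.Results.MP_5335f7_al.TwoGenerated
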